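import Mathlib
import Pool.Agent.T6.H49.CSD.LittComplex

/-! # MP_0ea415_nt: a complexity criterion for Littlewood's conjecture

For real `α, β` let `L` be the matrix with rows `(1, 0, 0)`, `(α, -1, 0)`, `(β, 0, -1)`; the product
of the linear forms given by its rows is `q (q α - p) (q β - r)`. The deep part of the cone orbit of
`(α, β)` consists of the matrices `diag(a) L` with `a` positive of product one and with
`a 1, a 2 ≥ N`.

Two matrices `x` and `y` are `ε`-close if `x = diag(b) (1 + E) y γ` with `1 / K ≤ b i ≤ K`, with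
`|E i j| ≤ ε` and with `γ` integral of determinant `±1`: up to the size `ε` they are the same, up to
a bounded diagonal matrix and an integral change of variables.

The theorem: for all `ν > 0` and `K ≥ 1` there are `c, ε₀ > 0` such that for all real `α, β`: if for
one single scale `ε < ε₀` and for one `N` the deep part of the cone orbit of `(α, β)` can be divided
into less than `c (log (1 / ε)) ^ 2` classes such that any two elements of a class are `ε`-close,
then `q ⟨qα⟩ ⟨qβ⟩ < ν` for infinitely many `q`.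

So for a counterexample to Littlewood's conjecture with `liminf q ⟨qα⟩ ⟨qβ⟩ > ν` the complexity of
the deep part of the cone orbit is at least `c (log (1 / ε)) ^ 2` at every scale `ε < ε₀`, where
`c` and `ε₀` only depend on `ν` and `K`. In particular Littlewood's conjecture holds for `(α, β)` if
for some `N` this complexity is not bounded below by a positive multiple of
`(log (1 / ε)) ^ 2` as `ε` tends to zero. -/

set_option autoImplicit false

open Filter Topology

namespace Pool.Agent.Results.MP_0ea415_nt.ConeComplexity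

/-- `q ⟨qα⟩ ⟨qβ⟩`, where `⟨x⟩` is the distance from `x` to the nearest integer -/
noncomputable def f (α β : ℝ) (q : ℕ) : ℝ :=
  (q : ℝ) * |(q : ℝ) * α - (round ((q : ℝ) * α) : ℝ)| * |(q : ℝ) * β - (round ((q : ℝ) * β) : ℝ)|

/-- The matrix of the linear forms `q`, `q α - p`, `q β - r`. -/
def L (α β : ℝ) : Matrix (Fin 3) (Fin 3) ℝ := !![1, 0, 0; α, -1, 0; β, 0, -1]

/-- `x = diag(b) (1 + E) y γ` with `b` between `1 / K` and `K`, with the entries of `E` at most `ε`
and with `γ` integral of determinant `±1` -/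
def Close (K ε : ℝ) (x y : Matrix (Fin 3) (Fin 3) ℝ) : Prop :=
  ∃ (b : Fin 3 → ℝ) (E : Matrix (Fin 3) (Fin 3) ℝ) (γ : Matrix (Fin 3) (Fin 3) ℤ),
    (∀ i, 1 / K ≤ b i ∧ b i ≤ K) ∧ (∀ i j, |E i j| ≤ ε) ∧ |γ.det| = 1 ∧
    x = Matrix.diagonal b * (1 + E) * y * γ.map (Int.cast : ℤ → ℝ)

/-- `a` is a place in the part of the cone of depth `N` -/
def Deep (N : ℝ) (a : Fin 3 → ℝ) : Prop :=
  (∀ i, 0 < a i) ∧ ∏ i, a i = 1 ∧ N ≤ a 1 ∧ N ≤ a 2

/-- The part of depth `N` of the cone orbit of `(α, β)` can be divided into `k` classes such that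
any two elements of a class are close. -/
def Pieces (K ε N α β : ℝ) (k : ℕ) : Prop :=
  ∃ col : (Fin 3 → ℝ) → Fin k, ∀ a a' : Fin 3 → ℝ, Deep N a → Deep N a' → col a = col a' →
    Close K ε (Matrix.diagonal a * L α β) (Matrix.diagonal a' * L α β)

theorem result (ν K : ℝ) (hν : 0 < ν) (hK : 1 ≤ K) :
    ∃ c ε₀ : ℝ, 0 < c ∧ 0 < ε₀ ∧ ∀ (α β ε N : ℝ) (k : ℕ), 0 < ε → ε < ε₀ →
      Pieces K ε N α β k → (k : ℝ) < c * Real.log (1 / ε) ^ 2 →
      ∀ M : ℕ, ∃ q : ℕ, M ≤ q ∧ 0 < q ∧ f α β q < ν := by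
  classical
  obtain ⟨c, ε₀, hc, hε₀, hmain⟩ := T6.H49.CSD.litt_complexity hν hK
  refine ⟨c, ε₀, hc, hε₀, fun α β ε N k hε0 hε hP hk => ?_⟩
  by_contra hcon
  push Not at hcon
  obtain ⟨M, hM⟩ := hcon
  obtain ⟨ν', hν'0, hν'⟩ := H715R2.exists_nu hν hM
  -- `α` is irrational
  have hα : Irrational α := by
    rintro ⟨x, hx⟩
    have h1 := hν' (x.den : ℤ) x.num 0 (by exact_mod_cast x.den_nz)
    have h2 : α * ((x.den : ℤ) : ℝ) - (x.num : ℝ) = 0 := by
      rw [← hx]
      have h3 : (x : ℝ) * (x.den : ℝ) = x.num := by exact_mod_cast Rat.mul_den_eq_num x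
      push_cast
      rw [h3, sub_self]
    rw [h2, mul_zero, zero_mul, abs_zero] at h1
    exact absurd hν'0 (not_lt.2 h1)
  -- the lower bound for large `q`
  have hlarge : ∀ q p r : ℤ, ((max M 1 : ℕ) : ℤ) ≤ |q| →
      ν ≤ |(q : ℝ) * (α * q - p) * (β * q - r)| := by
    intro q p r hq
    have hqM : M ≤ q.natAbs ∧ 0 < q.natAbs := by
      have h1 : ((max M 1 : ℕ) : ℤ) ≤ (q.natAbs : ℤ) := by rwa [Int.natCast_natAbs]
      have h2 : max M 1 ≤ q.natAbs := by exact_mod_cast h1
      exact ⟨(le_max_left _ _).trans h2, lt_of_lt_of_le one_pos ((le_max_right _ _).trans h2)⟩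
    have h1 := hM q.natAbs hqM.1 hqM.2
    refine h1.trans ?_
    have hround : ∀ (x : ℝ) (z : ℤ), |((q.natAbs : ℕ) : ℝ) * x -
        (round (((q.natAbs : ℕ) : ℝ) * x) : ℝ)| ≤ |x * q - z| := by
      intro x z
      rcases Int.natAbs_eq q with hq' | hq'
      · have h2 : (((q.natAbs : ℕ) : ℝ)) = (q : ℝ) := by
          rw [Nat.cast_natAbs]
          have : (0 : ℤ) ≤ q := by omega
          rw [abs_of_nonneg this]
        rw [h2, mul_comm (q : ℝ) x]
        exact round_le _ _
      · have h2 : (((q.natAbs : ℕ) : ℝ)) = -(q : ℝ) := by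
          rw [Nat.cast_natAbs]
          have : q ≤ 0 := by omega
          rw [abs_of_nonpos this]
          push_cast
          ring
        have h3 := round_le (-(q : ℝ) * x) (-z)
        rw [h2]
        refine h3.trans (le_of_eq ?_)
        push_cast
        have : -(q : ℝ) * x - -(z : ℝ) = -(x * q - z) := by ring
        rw [this, abs_neg]
    rw [abs_mul, abs_mul, f, Nat.cast_natAbs, Int.cast_abs]
    have h3 := hround α p
    have h4 := hround β r
    rw [Nat.cast_natAbs, Int.cast_abs] at h3 h4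
    exact mul_le_mul (mul_le_mul_of_nonneg_left h3 (abs_nonneg _)) h4 (abs_nonneg _)
      (mul_nonneg (abs_nonneg _) (abs_nonneg _))
  obtain ⟨col, hcol⟩ := hP
  refine absurd (hmain α β hα ⟨ν', hν'0, hν'⟩ ⟨max M 1, hlarge⟩ ε hε0 hε N k col
    fun a a' ha0 ha1 h1 h2 ha0' ha1' h1' h2' heq => ?_) (not_le.2 hk)
  obtain ⟨b, E, γ, hb, hE, hγ, h⟩ := hcol a a' ⟨ha0, ha1, h1, h2⟩ ⟨ha0', ha1', h1', h2'⟩ heq
  exact ⟨b, E, γ, hb, hE, Int.isUnit_iff_abs_eq.2 hγ, h⟩

end Pool.Agent.Results.MP_0ea415_nt.ConeComplexity
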