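import Pool.Agent.T6.H43.LA.Code

/-! # MP_0ea415_nt: codes given by arbitrary rotations and generic step functions

Let `α` be irrational with partial quotients `a k` (`pq α k`) and convergents
`p_{k-1} / q_{k-1} = num α k / den α k`, and let `β = ∑ k, x k * (q_{k-1} α - p_{k-1})` be a digit
expansion.  The pair `(α, β)` has the code `(a (k + 1), x (k + 1))`.  Let `θ` be ANY irrational number, for
instance a quadratic one.  We show: for almost all `(p_1, …, p_d)` in `ℝ ^ d` the Littlewood conjecture holds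
for all pairs with a code of the form `F (y + k θ)`, where `F` is any step function whose
discontinuities are in the set `{p_1, …, p_d} + ℤ θ + ℤ`. -/

set_option autoImplicit false

open MeasureTheory

namespace Pool.Agent.Results.MP_0ea415_nt.GenericRotationCodings

open Pool.Agent.H380R2.LC

/-- Littlewood's conjecture for the pair `(α, β)` (the form of the frozen statement). -/
def Littlewood (α β : ℝ) : Prop :=
  ∀ ε : ℝ, 0 < ε → ∀ N : ℕ, ∃ q : ℕ, N ≤ q ∧ 0 < q ∧
    (q : ℝ) * |(q : ℝ) * α - (round ((q : ℝ) * α) : ℝ)|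
      * |(q : ℝ) * β - (round ((q : ℝ) * β) : ℝ)| < ε

/-- `F` has period one, and it is constant on all closed intervals which contain no element of `D + ℤ`. -/
structure StepFunction (D : Finset ℝ) (F : ℝ → ℤ × ℤ) : Prop where
  periodic : ∀ y, F (y + 1) = F y
  const : ∀ u v : ℝ, u ≤ v → (∀ d ∈ D, ∀ m : ℤ, ¬ (u ≤ d + m ∧ d + m ≤ v)) → F u = F v

theorem result (θ : ℝ) (hθ : Irrational θ) (d : ℕ) : ∀ᵐ p : Fin d → ℝ,
    ∀ D : Finset ℝ, (∀ z ∈ D, ∃ i, ∃ m n : ℤ, z = p i + m * θ + n) →
    ∀ F : ℝ → ℤ × ℤ, StepFunction D F →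
    -- the pair
    ∀ (y α β : ℝ) (x : ℕ → ℤ), Irrational α → (∀ k : ℕ, (pq α (k + 1), x (k + 1)) = F (y + k * θ)) →
      HasSum (fun k => (x k : ℝ) * (den α k * α - num α k)) β → Littlewood α β := by
  filter_upwards [T6.H43.LA.generic_code hθ d] with p hp
  intro D hD F S y α β x hα hcode hβ
  exact hp D hD F ⟨S.periodic, S.const⟩ y α β x hα hcode hβ

end Pool.Agent.Results.MP_0ea415_nt.GenericRotationCodings
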