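import Mathlib
import Pool.Agent.T6.H49.CSD.LittMain

/-! # MP_0ea415_nt: the small values of a counterexample to Littlewood's conjecture do not
concentrate

Let `α, β` be real numbers, let `T` be a real number and `ε > 0`. Suppose that for every `δ > 0`
there are arbitrarily large `Q` and real `v` (which may depend on `δ` and `Q`) such that
`q ⟨qα⟩ ⟨qβ⟩` is less than `T` and at a distance less than `δ` from `v` for at least
`ε (log Q) ^ 2` of the numbers `q = 1, ..., Q`. Then `liminf q ⟨qα⟩ ⟨qβ⟩ = 0`.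

So if `(α, β)` is a counterexample to Littlewood's conjecture, then no limit distribution of the
values `q ⟨qα⟩ ⟨qβ⟩ < T`, `q ≤ Q`, normalised by `(log Q) ^ 2`, has an atom. (Remark, not proved
here: for a counterexample and `T > 1` the number of these values is about `(log Q) ^ 2`.) -/

set_option autoImplicit false

open Filter Topology

namespace Pool.Agent.Results.MP_0ea415_nt.NonconcentratedLimitValues

/-- `q ⟨qα⟩ ⟨qβ⟩`, where `⟨x⟩` is the distance from `x` to the nearest integer -/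
noncomputable def f (α β : ℝ) (q : ℕ) : ℝ :=
  (q : ℝ) * |(q : ℝ) * α - (round ((q : ℝ) * α) : ℝ)| * |(q : ℝ) * β - (round ((q : ℝ) * β) : ℝ)|

theorem result (α β T ε : ℝ) (hε : 0 < ε)
    (h : ∀ δ : ℝ, 0 < δ → ∀ Q₀ : ℕ, ∃ Q : ℕ, Q₀ ≤ Q ∧ ∃ v : ℝ, ε * Real.log Q ^ 2 ≤
      ({q : ℕ | 0 < q ∧ q ≤ Q ∧ f α β q < T ∧ |f α β q - v| < δ}.ncard : ℝ)) :
    ∀ ε' : ℝ, 0 < ε' → ∀ N : ℕ, ∃ q : ℕ, N ≤ q ∧ 0 < q ∧ f α β q < ε' := by
  by_contra hcon
  push Not at hcon
  obtain ⟨ε', hε', N, hN⟩ := hcon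
  obtain ⟨ν, hν0, hν⟩ := H715R2.exists_nu hε' hN
  obtain ⟨δ, C, hδ, hC⟩ := T6.H49.CSD.litt_no_atoms (T := max T 1) hν0 hν
    (lt_max_of_lt_right one_pos) (half_pos hε)
  set L : ℝ := 4 * |C| / ε + 1 with hL
  have hL1 : 1 ≤ L := by
    have : 0 ≤ 4 * |C| / ε := by positivity
    linarith
  obtain ⟨Q, hQ, v, hv⟩ := h δ hδ ⌈Real.exp L⌉₊
  have hQL : Real.exp L ≤ Q := (Nat.le_ceil _).trans (by exact_mod_cast hQ)
  have hQ1 : (1 : ℝ) ≤ Q := (Real.one_le_exp (by linarith)).trans hQL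
  have hlQ : L ≤ Real.log Q := by
    rw [← Real.log_exp L]
    exact Real.log_le_log (Real.exp_pos _) hQL
  set s : Set ℕ := {q : ℕ | 0 < q ∧ q ≤ Q ∧ f α β q < T ∧ |f α β q - v| < δ} with hs
  have hfin : s.Finite := (Set.finite_Iic Q).subset fun q hq => hq.2.1
  have h1 := hC Q hQ1 v hfin.toFinset (fun q hq => by
    obtain ⟨h1, h2, h3, h4⟩ := hfin.mem_toFinset.1 hq
    exact ⟨h1, by exact_mod_cast h2, h3.trans_le (le_max_left _ _), h4⟩)
  rw [← Set.ncard_eq_toFinset_card _ hfin] at h1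
  have h2 : C * (1 + Real.log Q) < ε / 2 * Real.log Q ^ 2 := by
    have h3 : C * (1 + Real.log Q) ≤ |C| * (2 * Real.log Q) := by
      have h4 : 0 ≤ 1 + Real.log Q := by linarith
      calc C * (1 + Real.log Q) ≤ |C| * (1 + Real.log Q) :=
            mul_le_mul_of_nonneg_right (le_abs_self C) h4
        _ ≤ |C| * (2 * Real.log Q) := mul_le_mul_of_nonneg_left (by linarith) (abs_nonneg C)
    have h4 : ε * L = 4 * |C| + ε := by
      rw [hL]
      field_simp
    have h5 : ε * L ≤ ε * Real.log Q := mul_le_mul_of_nonneg_left hlQ hε.le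
    have h6 : 4 * |C| < ε * Real.log Q := by linarith
    have h7 : 0 < Real.log Q := by linarith
    nlinarith
  linarith

end Pool.Agent.Results.MP_0ea415_nt.NonconcentratedLimitValues
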