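import Pool.Agent.T6.H43.LS.Unit

/-!
Littlewood's conjecture, with a power saving, for a real quadratic number `α` and the numbers
`β = ∑ w_k ε^(-k)`, where `ε > 1` is a unit of `ℚ(α)` and the digits are sums
`w_k = ∑_{j ≤ r} F_j (y_j + k θ_j)` of codings of `r` rotations by step functions, for almost all
`(θ_1, …, θ_r)`: if `F_1, …, F_r` together have at most `D` discontinuities, then for every
`η < 1 / (2 D + 1)` there are infinitely many `q` with `q^(1 + η) ‖q α‖ ‖q β‖ < 1`.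
For instance, `β` can be any linear combination with coefficients in `ℚ(α)` of `1` and of the
Hecke-Mahler numbers `∑ ⌊k θ_j + y_j⌋ ε^(-k)`.
-/

set_option autoImplicit false

open MeasureTheory

namespace Pool.Agent.Results.MP_0ea415_nt.SumsOfRotationCodings

/-- `F` is a step function on the circle with values in `ℚ + ℚ α`: it has period one, and it is constant
on all closed intervals which contain no point `d + m` with `d ∈ D` and `m` an integer. -/
structure StepFunction (α : ℝ) (D : Finset ℝ) (F : ℝ → ℝ) : Prop where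
  per : ∀ y, F (y + 1) = F y
  const : ∀ u v : ℝ, u ≤ v → (∀ d ∈ D, ∀ m : ℤ, ¬ (u ≤ d + m ∧ d + m ≤ v)) → F u = F v
  val : ∀ y, ∃ a b : ℚ, F y = a + b * α

/-- `ε > 1` is a unit (an algebraic integer of norm `1` or `-1`) in `ℚ + ℚ α`. -/
def UnitIn (α ε : ℝ) : Prop :=
  1 < ε ∧ (∃ u v : ℚ, ε = u + v * α) ∧
    ∃ t σ : ℤ, (σ = 1 ∨ σ = -1) ∧ ε ^ 2 - t * ε + σ = 0

/-- For almost all `θ ∈ ℝ ^ r`, for all quadratic `α`, all units `ε > 1` of `ℚ(α)` and all numbers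
`β = ∑ (F_1 (y_1 + k θ_1) + … + F_r (y_r + k θ_r)) ε^(-k)`, there are for all positive `η` smaller than
`1 / (2 D + 1)`, where `D` is the total number of discontinuities, infinitely many `q` with
`q^(1 + η) ‖q α‖ ‖q β‖ < 1`. -/
theorem result (r : ℕ) : ∀ᵐ θ : Fin r → ℝ,
    ∀ (α ε : ℝ), UnitIn α ε →
    ∀ (D : Fin r → Finset ℝ) (F : Fin r → ℝ → ℝ), (∀ j, StepFunction α (D j) (F j)) →
    ∀ (y : Fin r → ℝ) (β : ℝ), β = ∑' k : ℕ, (∑ j, F j (y j + k * θ j)) * ε⁻¹ ^ k →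
    ∀ η : ℝ, 0 < η → η * (2 * ((∑ j, (D j).card : ℕ) : ℝ) + 1) < 1 →
    ∀ N : ℕ, ∃ q : ℕ, N ≤ q ∧ 0 < q ∧
      (q : ℝ) ^ (1 + η) * |(q : ℝ) * α - (round ((q : ℝ) * α) : ℝ)|
        * |(q : ℝ) * β - (round ((q : ℝ) * β) : ℝ)| < 1 := by
  filter_upwards [T6.H43.LS.SC_ae r, T6.H43.LS.irr_ae r] with θ h1 h2
  rintro α ε hε D F hF y β rfl η hη0 hη N
  obtain ⟨q, hq1, hq2, hq3⟩ := T6.H43.LS.rot_rate θ h2 h1 α ε hε.1 hε.2.1 hε.2.2 D F
    (fun j => ⟨(hF j).per, (hF j).const⟩) (fun j x => (hF j).val x) y η hη0 hη N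
  refine ⟨q, hq1, hq2, lt_of_eq_of_lt ?_ hq3⟩
  have hq0 : (0 : ℝ) < q := by exact_mod_cast hq2
  rw [Real.rpow_add hq0, Real.rpow_one, H389R2.LC.L]
  ring

end Pool.Agent.Results.MP_0ea415_nt.SumsOfRotationCodings
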